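import Mathlib

open scoped Classical
open Finset

set_option linter.unusedSectionVars false

namespace Q264.CM

variable {G : Type*} [Group G] [Finite G]

/-- number of fixed points of `g` on `G ⧸ C` -/
noncomputable def perm (C : Subgroup G) (g : G) : ℚ := (Nat.card {x : G ⧸ C // g • x = x} : ℚ)

/-- rational class functions -/
def RC (f : G → ℚ) : Prop :=
  (∀ x g, f (x * g * x⁻¹) = f g) ∧
    ∀ g h : G, Subgroup.zpowers g = Subgroup.zpowers h → f g = f h

lemma perm_ne_zero {C : Subgroup G} {g : G} (h : perm C g ≠ 0) : ∃ x : G, x⁻¹ * g * x ∈ C := by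
  unfold perm at h
  have h1 : Nat.card {x : G ⧸ C // g • x = x} ≠ 0 := by
    intro h2; apply h; rw [h2]; simp
  have h3 : Nonempty {x : G ⧸ C // g • x = x} := by
    by_contra h4
    rw [not_nonempty_iff] at h4
    exact h1 (Nat.card_of_isEmpty)
  obtain ⟨⟨x, hx⟩⟩ := h3
  induction x using QuotientGroup.induction_on with
  | H x =>
    refine ⟨x, ?_⟩
    have h5 : ((g * x : G) : G ⧸ C) = (x : G ⧸ C) := hx
    have h6 := QuotientGroup.eq.mp h5.symm
    rw [mul_assoc]
    exact h6

lemma perm_nonneg (C : Subgroup G) (g : G) : 0 ≤ perm C g := by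
  unfold perm; positivity

lemma perm_self (g : G) : 1 ≤ perm (Subgroup.zpowers g) g := by
  unfold perm
  have : Nonempty {x : G ⧸ (Subgroup.zpowers g) // g • x = x} := by
    refine ⟨⟨((1 : G) : G ⧸ Subgroup.zpowers g), ?_⟩⟩
    change ((g * 1 : G) : G ⧸ Subgroup.zpowers g) = ((1 : G) : G ⧸ Subgroup.zpowers g)
    rw [QuotientGroup.eq]
    simp
  have h := Nat.card_pos (α := {x : G ⧸ (Subgroup.zpowers g) // g • x = x})
  exact_mod_cast h

lemma smul_fix_iff {X : Type*} [MulAction G X] {g h : G}
    (hgh : Subgroup.zpowers g = Subgroup.zpowers h) (x : X) : g • x = x ↔ h • x = x := by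
  have key : ∀ {g h : G}, Subgroup.zpowers g = Subgroup.zpowers h → g • x = x → h • x = x := by
    intro g h hgh hx
    have h1 : h ∈ Subgroup.zpowers g := by rw [hgh]; exact Subgroup.mem_zpowers h
    have h2 : Subgroup.zpowers g ≤ MulAction.stabilizer G x := by
      rw [Subgroup.zpowers_le]; exact hx
    exact h2 h1
  exact ⟨key hgh, key hgh.symm⟩

lemma perm_conj (C : Subgroup G) (x g : G) : perm C (x * g * x⁻¹) = perm C g := by
  unfold perm
  congr 1
  refine Nat.card_congr ((MulAction.toPerm x⁻¹).subtypeEquiv fun y => ?_)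
  rw [MulAction.toPerm_apply, mul_smul, mul_smul, smul_eq_iff_eq_inv_smul]

lemma perm_RC (C : Subgroup G) : RC (perm C) := by
  refine ⟨perm_conj C, fun g h hgh => ?_⟩
  unfold perm
  congr 1
  exact Nat.card_congr (Equiv.subtypeEquivRight fun x => smul_fix_iff hgh x)

lemma RC_eq_of_mem {f : G → ℚ} (hf : RC f) {g y x : G} (hx : x⁻¹ * g * x ∈ Subgroup.zpowers y)
    (ho : orderOf g = orderOf y) : f g = f y := by
  have h1 : f g = f (x⁻¹ * g * x) := by
    have := hf.1 x⁻¹ g
    rw [inv_inv] at this
    exact this.symm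
  rw [h1]
  apply hf.2
  have h2 : orderOf (x⁻¹ * g * x) = orderOf g := by
    have : x⁻¹ * g * x = MulAut.conj x⁻¹ g := by simp
    rw [this]
    exact orderOf_injective (MulAut.conj x⁻¹).toMonoidHom (MulAut.conj x⁻¹).injective g
  apply Subgroup.eq_of_le_of_card_ge
  · rw [Subgroup.zpowers_le]; exact hx
  · rw [Nat.card_zpowers, Nat.card_zpowers, h2, ho]

lemma orderOf_le_of_perm {y g : G} (h : perm (Subgroup.zpowers y) g ≠ 0) :
    orderOf g ≤ orderOf y := by
  obtain ⟨x, hx⟩ := perm_ne_zero h
  have h2 : orderOf (x⁻¹ * g * x) = orderOf g := by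
    have : x⁻¹ * g * x = MulAut.conj x⁻¹ g := by simp
    rw [this]
    exact orderOf_injective (MulAut.conj x⁻¹).toMonoidHom (MulAut.conj x⁻¹).injective g
  rw [← h2, ← Nat.card_zpowers, ← Nat.card_zpowers]
  apply Subgroup.card_le_of_le
  rw [Subgroup.zpowers_le]; exact hx

lemma RC.sub {f f' : G → ℚ} (hf : RC f) (hf' : RC f') : RC (f - f') := by
  refine ⟨fun x g => ?_, fun g h hgh => ?_⟩
  · simp only [Pi.sub_apply]; rw [hf.1, hf'.1]
  · simp only [Pi.sub_apply]; rw [hf.2 g h hgh, hf'.2 g h hgh]

lemma RC.sum {ι : Type*} (s : Finset ι) (F : ι → G → ℚ) (h : ∀ i ∈ s, RC (F i)) :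
    RC (∑ i ∈ s, F i) := by
  refine ⟨fun x g => ?_, fun g h' hgh => ?_⟩
  · simp only [Finset.sum_apply]; exact Finset.sum_congr rfl fun i hi => (h i hi).1 x g
  · simp only [Finset.sum_apply]; exact Finset.sum_congr rfl fun i hi => (h i hi).2 g h' hgh

lemma RC.smul {f : G → ℚ} (a : ℚ) (hf : RC f) : RC (a • f) := by
  refine ⟨fun x g => ?_, fun g h hgh => ?_⟩
  · simp only [Pi.smul_apply]; rw [hf.1]
  · simp only [Pi.smul_apply]; rw [hf.2 g h hgh]

/-- Artin's theorem for rational class functions. -/
lemma artin_aux (n : ℕ) : ∀ f : G → ℚ, RC f → (∀ g, n < orderOf g → f g = 0) →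
    f ∈ Submodule.span ℚ (Set.range fun y : G => perm (Subgroup.zpowers y)) := by
  have : Fintype G := Fintype.ofFinite G
  induction n with
  | zero =>
    intro f _ h0
    have : f = 0 := by
      ext g; exact h0 g (orderOf_pos g)
    rw [this]; exact Submodule.zero_mem _
  | succ n ih =>
    intro f hf h0
    -- the normalising function
    set M : G → ℚ := fun g => ∑ y ∈ univ.filter (fun y : G => orderOf y = n + 1),
      perm (Subgroup.zpowers y) g with hM
    have hMRC : RC M := by
      have : M = ∑ y ∈ univ.filter (fun y : G => orderOf y = n + 1),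
          perm (Subgroup.zpowers y) := by
        ext g; simp [hM]
      rw [this]
      exact RC.sum _ _ fun y _ => perm_RC _
    have hMpos : ∀ g, orderOf g = n + 1 → 0 < M g := by
      intro g hg
      have h1 : perm (Subgroup.zpowers g) g ≤ M g := by
        apply Finset.single_le_sum (f := fun y => perm (Subgroup.zpowers y) g)
          (fun y _ => perm_nonneg _ _)
        simp [hg]
      linarith [perm_self g]
    set T : G → ℚ := ∑ y ∈ univ.filter (fun y : G => orderOf y = n + 1),
      (f y / M y) • perm (Subgroup.zpowers y) with hT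
    have hTRC : RC T := RC.sum _ _ fun y _ => (perm_RC _).smul _
    have hTmem : T ∈ Submodule.span ℚ (Set.range fun y : G => perm (Subgroup.zpowers y)) := by
      apply Submodule.sum_mem
      intro y _
      exact Submodule.smul_mem _ _ (Submodule.subset_span ⟨y, rfl⟩)
    have hTval : ∀ g, n < orderOf g → T g = f g := by
      intro g hg
      rcases Nat.lt_or_ge (n + 1) (orderOf g) with hlt | hge
      · rw [h0 g hlt, hT]
        simp only [Finset.sum_apply, Pi.smul_apply, smul_eq_mul]
        apply Finset.sum_eq_zero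
        intro y hy
        have hy' : orderOf y = n + 1 := (Finset.mem_filter.mp hy).2
        have : perm (Subgroup.zpowers y) g = 0 := by
          by_contra hne
          have := orderOf_le_of_perm hne
          omega
        rw [this, mul_zero]
      · have hog : orderOf g = n + 1 := by omega
        rw [hT]
        simp only [Finset.sum_apply, Pi.smul_apply, smul_eq_mul]
        have h2 : ∀ y ∈ univ.filter (fun y : G => orderOf y = n + 1),
            f y / M y * perm (Subgroup.zpowers y) g =
              f g / M g * perm (Subgroup.zpowers y) g := by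
          intro y hy
          have hy' : orderOf y = n + 1 := (Finset.mem_filter.mp hy).2
          by_cases hne : perm (Subgroup.zpowers y) g = 0
          · rw [hne]; simp
          · obtain ⟨x, hx⟩ := perm_ne_zero hne
            rw [RC_eq_of_mem hf hx (by omega), RC_eq_of_mem hMRC hx (by omega)]
        rw [Finset.sum_congr rfl h2, ← Finset.mul_sum]
        have h3 : M g ≠ 0 := (hMpos g hog).ne'
        change f g / M g * M g = f g
        field_simp
    have h4 := ih (f - T) (hf.sub hTRC) (fun g hg => by
      simp only [Pi.sub_apply]; rw [hTval g hg]; ring)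
    have h5 : f = (f - T) + T := by ring
    rw [h5]
    exact Submodule.add_mem _ h4 hTmem

lemma artin (f : G → ℚ) (hf : RC f) :
    f ∈ Submodule.span ℚ (Set.range fun y : G => perm (Subgroup.zpowers y)) := by
  refine artin_aux (Nat.card G) f hf fun g hg => ?_
  have : orderOf g ≤ Nat.card G := orderOf_le_card
  omega

end Q264.CM
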