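import Pool.Agent.Q264.CM.Main

open scoped Classical commutatorElement
open Finset

set_option linter.unusedSectionVars false
set_option linter.unusedVariables false

namespace Q264.CM

variable {G : Type*} [Group G] [Finite G]

section ab

variable {X : Type*} [Fintype X] [MulAction G X]

lemma conj_comm (g η : G) : g⁻¹ * (η⁻¹ * g * η) ∈ commutator G := by
  have h : g⁻¹ * (η⁻¹ * g * η) = ⁅g⁻¹, η⁻¹⁆ := by
    rw [commutatorElement_def]; group
  rw [h]
  exact Subgroup.commutator_mem_commutator (Subgroup.mem_top _) (Subgroup.mem_top _)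

/-- in the abelian case `a⁰` is an indicator -/
lemma aa_abelian (x0 : X) (hst : ∀ g : G, g ∈ commutator G → g • x0 = x0)
    (Φ : Finset X) (g : G) : aa x0 Φ g = if g • x0 ∈ Φ then 1 else 0 := by
  have h1 : ∀ η : G, (η⁻¹ * g * η) • x0 = g • x0 := by
    intro η
    have h2 : η⁻¹ * g * η = g * (g⁻¹ * (η⁻¹ * g * η)) := by group
    rw [h2, mul_smul, hst _ (conj_comm g η)]
  unfold aa
  simp_rw [h1]
  have hpos : (Nat.card G : ℚ) ≠ 0 := by exact_mod_cast Nat.card_pos.ne'
  by_cases h : g • x0 ∈ Φ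
  · simp [h]
  · simp [h]

lemma ab_main {c : G} (hc2 : c * c = 1) (hfree : ∀ x : X, c • x ≠ x) (x0 : X)
    (htr : ∀ α : X, ∃ g : G, g • x0 = α) (hst : ∀ g : G, g • x0 = x0 ↔ g ∈ commutator G)
    (D : (G → ℚ) →ₗ[ℚ] ℝ) (hab : ∀ Φ : Finset X, isT c Φ → D (aa x0 Φ) = 0)
    (l : G → ℚ) (hl : ∀ g h : G, g⁻¹ * h ∈ commutator G → l g = l h)
    (hodd : ∀ g, l (c * g) = - l g) : D l = 0 := by
  have hst' : ∀ g : G, g ∈ commutator G → g • x0 = x0 := fun g h => (hst g).mpr h
  let dl : X → G → ℚ := fun α g => if g • x0 = α then 1 else 0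
  have h1 : ∀ α : X, D (dl α - dl (c • α)) = 0 := by
    intro α
    obtain ⟨Φ0, hΦ0⟩ := types_nonempty (X := X) hc2 hfree
    have hex : ∃ Φ : Finset X, isT c Φ ∧ α ∈ Φ := by
      by_cases h : α ∈ Φ0
      · exact ⟨Φ0, hΦ0, h⟩
      · refine ⟨flip c α Φ0, flip_isT hc2 hΦ0, ?_⟩
        rw [mem_flip]; simp [h]
    obtain ⟨Φ, hΦ, hα⟩ := hex
    have h2 : dl α - dl (c • α) = aa x0 Φ - aa x0 (flip c α Φ) := by
      ext g
      simp only [Pi.sub_apply]
      rw [aa_abelian x0 hst', aa_abelian x0 hst']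
      change (if g • x0 = α then (1 : ℚ) else 0) - (if g • x0 = c • α then 1 else 0) = _
      by_cases h3 : g • x0 = α
      · have h4 : g • x0 ≠ c • α := by rw [h3]; exact (hfree α).symm
        have h5 : g • x0 ∉ flip c α Φ := by rw [mem_flip, h3]; simp [hα]
        have h6 : g • x0 ∈ Φ := by rw [h3]; exact hα
        rw [if_pos h3, if_neg h4, if_pos h6, if_neg h5]
      · by_cases h4 : g • x0 = c • α
        · have h6 : g • x0 ∉ Φ := by rw [h4]; exact (hΦ α).mp hα
          have h5 : g • x0 ∈ flip c α Φ := by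
            rw [mem_flip, if_pos (Or.inr h4)]; exact h6
          rw [if_neg h3, if_pos h4, if_neg h6, if_pos h5]
        · have h5 : g • x0 ∈ flip c α Φ ↔ g • x0 ∈ Φ := by
            rw [mem_flip, if_neg (by tauto)]
          rw [if_neg h3, if_neg h4]
          by_cases h6 : g • x0 ∈ Φ
          · rw [if_pos h6, if_pos (h5.mpr h6)]; ring
          · rw [if_neg h6, if_neg (fun h => h6 (h5.mp h))]
    rw [h2, map_sub, hab Φ hΦ, hab _ (flip_isT hc2 hΦ), sub_zero]
  choose s hs using htr
  have h2 : l = (1 / 2 : ℚ) • ∑ α : X, (l (s α)) • (dl α - dl (c • α)) := by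
    ext g
    simp only [Pi.smul_apply, Finset.sum_apply, Pi.sub_apply, smul_eq_mul]
    have h3 : ∀ α : X, l (s α) * (dl α g - dl (c • α) g) =
        (if g • x0 = α then l (s α) else 0) - (if c • g • x0 = α then l (s α) else 0) := by
      intro α
      have h4 : (g • x0 = c • α) ↔ (c • g • x0 = α) := by
        constructor
        · intro h; rw [h, cc hc2]
        · intro h; rw [← h, cc hc2]
      change l (s α) * ((if g • x0 = α then (1 : ℚ) else 0) -
        (if g • x0 = c • α then (1 : ℚ) else 0)) = _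
      simp only [h4]
      rw [mul_sub]
      simp
    simp_rw [h3]
    rw [Finset.sum_sub_distrib, Finset.sum_ite_eq, Finset.sum_ite_eq]
    simp only [Finset.mem_univ, if_true]
    have h5 : l (s (g • x0)) = l g := by
      apply hl
      rw [← hst, mul_smul, ← hs (g • x0), ← mul_smul]
      rw [hs (g • x0)]
      rw [mul_smul, inv_smul_eq_iff, hs]
    have h6 : l (s (c • g • x0)) = l (c * g) := by
      apply hl
      rw [← hst, mul_smul, inv_smul_eq_iff, hs, mul_smul]
    rw [h5, h6, hodd]
    ring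
  rw [h2, map_smul, map_sum]
  have : ∑ α : X, D (l (s α) • (dl α - dl (c • α))) = 0 := by
    apply Finset.sum_eq_zero
    intro α _
    rw [map_smul, h1, smul_zero]
  rw [this, smul_zero]

end ab

/-- the group theoretic main theorem -/
theorem group_main {X : Type*} [Fintype X] [MulAction G X] {c : G} (hc2 : c * c = 1) (hc1 : c ≠ 1)
    (hcen : ∀ g : G, c * g = g * c) (D : (G → ℚ) →ₗ[ℚ] ℝ) (hD1 : D 1 = 0)
    (hP : ∀ C : Subgroup G, c ∉ C → D (PP (G ⧸ C) c) = 0) (x0 : X)
    (htr : ∀ α : X, ∃ g : G, g • x0 = α) (hst : ∀ g : G, g • x0 = x0 ↔ g ∈ commutator G)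
    (hab : c ∉ commutator G → ∀ Φ : Finset X, isT c Φ → D (aa x0 Φ) = 0)
    (f : G → ℚ) (hf : ∀ x g, f (x * g * x⁻¹) = f g) (κ : ℚ)
    (hκ : ∀ g, f g + f (c * g) = 2 * κ) (hcond : Cond f) : D f = 0 := by
  have hN : NeZero (Nat.card G) := ⟨Nat.card_pos.ne'⟩
  have hcardU : ((Fintype.card (ZMod (Nat.card G))ˣ : ℕ) : ℚ) ≠ 0 := by
    exact_mod_cast Fintype.card_pos.ne'
  have hodd : ∀ u : (ZMod (Nat.card G))ˣ, Odd (u : ZMod (Nat.card G)).val := by
    intro u
    have h1 : Nat.Coprime (u : ZMod (Nat.card G)).val (Nat.card G) := ZMod.val_coe_unit_coprime u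
    have h2 : 2 ∣ Nat.card G := by
      have : orderOf c = 2 := orderOf_eq_prime (by rw [pow_two, hc2]) hc1
      rw [← this]; exact orderOf_dvd_natCard c
    have h3 : Nat.Coprime (u : ZMod (Nat.card G)).val 2 := Nat.Coprime.coprime_dvd_right h2 h1
    exact Nat.coprime_two_right.mp h3
  have hcpow : ∀ (u : (ZMod (Nat.card G))ˣ) (g : G), (c * g) ^ (u : ZMod (Nat.card G)).val =
      c * g ^ (u : ZMod (Nat.card G)).val := by
    intro u g
    have hcomm : Commute c g := hcen g
    rw [hcomm.mul_pow]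
    obtain ⟨m, hm⟩ := hodd u
    congr 1
    rw [hm, pow_succ, pow_mul, pow_two, hc2, one_pow, one_mul]
  have hgκ : ∀ g, gav f g + gav f (c * g) = 2 * κ := by
    intro g
    unfold gav
    rw [← add_div, ← Finset.sum_add_distrib, div_eq_iff hcardU]
    rw [Finset.sum_congr rfl (fun u _ => by rw [hcpow u g, hκ])]
    rw [Finset.sum_const, nsmul_eq_mul, Finset.card_univ]
    ring
  have hrc : RC (gav f) := gav_RC f hf
  -- rational part
  have hr0 : D (gav f - κ • (1 : G → ℚ)) = 0 := by
    apply RC_PP (C := ⊤) hc2 hcen _ _ _ D hP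
    · refine hrc.sub (RC.smul κ ⟨fun _ _ => rfl, fun _ _ _ => rfl⟩)
    · intro g
      simp only [Pi.sub_apply, Pi.smul_apply, Pi.one_apply, smul_eq_mul, mul_one]
      have := hgκ g
      linarith
  -- abelian part
  have hl : D (f - gav f) = 0 := by
    have hl1 : ∀ g h : G, g⁻¹ * h ∈ commutator G → (f - gav f) g = (f - gav f) h := by
      intro g h hgh
      have h1 : ∀ g, (f - gav f) g = (∑ u : (ZMod (Nat.card G))ˣ,
          (f g - f (g ^ (u : ZMod (Nat.card G)).val))) / (Fintype.card (ZMod (Nat.card G))ˣ) := by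
        intro g
        simp only [Pi.sub_apply]
        unfold gav
        rw [Finset.sum_sub_distrib, Finset.sum_const, nsmul_eq_mul, Finset.card_univ, sub_div,
          mul_div_cancel_left₀ _ hcardU]
      rw [h1, h1]
      congr 1
      apply Finset.sum_congr rfl
      intro u _
      have := hcond _ (ZMod.val_coe_unit_coprime u) g h hgh
      linarith
    have hl2 : ∀ g, (f - gav f) (c * g) = - (f - gav f) g := by
      intro g
      simp only [Pi.sub_apply]
      have h1 := hgκ g
      have h2 := hκ g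
      linarith
    by_cases hcG : c ∈ commutator G
    · have : f - gav f = 0 := by
        ext g
        have h1 := hl2 g
        have h2 : (f - gav f) g = (f - gav f) (c * g) := by
          apply hl1
          rw [hcen]
          simpa using hcG
        simp only [Pi.zero_apply]
        linarith
      rw [this, map_zero]
    · have hfree : ∀ x : X, c • x ≠ x := by
        intro x hx
        obtain ⟨g, rfl⟩ := htr x
        apply hcG
        rw [← hst]
        have h1 : g • c • x0 = g • x0 := by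
          rw [smul_smul, ← hcen, mul_smul, hx]
        exact smul_left_cancel g h1
      exact ab_main hc2 hfree x0 htr hst D (hab hcG) _ hl1 hl2
  have hsum : f = (f - gav f) + (gav f - κ • (1 : G → ℚ)) + κ • (1 : G → ℚ) := by ring
  rw [hsum, map_add, map_add, hl, hr0, map_smul, hD1]
  simp

end Q264.CM
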