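import Pool.Agent.Q264.CM.Fin

open scoped Classical
open Finset

set_option linter.unusedSectionVars false
set_option linter.unusedVariables false

namespace Q264.CM

variable {G : Type*} [Group G] [Finite G] {X : Type*} [Fintype X] [MulAction G X]

lemma card_ne : (Nat.card G : ℚ) ≠ 0 := by exact_mod_cast Nat.card_pos.ne'

lemma aa_conj (x : X) (Φ : Finset X) (y g : G) : aa x Φ (y * g * y⁻¹) = aa x Φ g := by
  unfold aa
  congr 2
  refine Nat.card_congr ((Equiv.mulLeft y⁻¹).subtypeEquiv fun η => ?_)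
  rw [Equiv.coe_mulLeft]
  have : η⁻¹ * (y * g * y⁻¹) * η = (y⁻¹ * η)⁻¹ * g * (y⁻¹ * η) := by group
  rw [this]

lemma aa_add_c {c : G} (hc2 : c * c = 1) (hcen : ∀ g : G, c * g = g * c) {Φ : Finset X}
    (h : isT c Φ) (x : X) (g : G) : aa x Φ g + aa x Φ (c * g) = 1 := by
  have : Fintype G := Fintype.ofFinite G
  rw [aa_eq, aa_eq, ← add_div, ← Finset.sum_add_distrib, div_eq_one_iff_eq card_ne]
  have h1 : ∀ η : G, ((if (η⁻¹ * g * η) • x ∈ Φ then (1 : ℚ) else 0) +
      if (η⁻¹ * (c * g) * η) • x ∈ Φ then 1 else 0) = 1 := by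
    intro η
    have h2 : η⁻¹ * (c * g) * η = c * (η⁻¹ * g * η) := by
      rw [← mul_assoc, ← hcen η⁻¹]; group
    rw [h2, mul_smul c (η⁻¹ * g * η) x]
    by_cases h3 : (η⁻¹ * g * η) • x ∈ Φ
    · rw [if_pos h3, if_neg ((h _).mp h3)]; norm_num
    · rw [if_neg h3, if_pos]
      · norm_num
      · by_contra h4; exact h3 ((h _).mpr h4)
  rw [Finset.sum_congr rfl fun η _ => h1 η]
  simp

lemma aa_c_smul {c : G} (hc2 : c * c = 1) (hcen : ∀ g : G, c * g = g * c) {Φ : Finset X}
    (h : isT c Φ) (x : X) (g : G) : aa x Φ g + aa (c • x) Φ g = 1 := by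
  have h1 : aa (c • x) Φ g = aa x Φ (c * g) := by
    unfold aa
    congr 2
    refine Nat.card_congr (Equiv.subtypeEquivRight fun η => ?_)
    rw [smul_smul]
    have h2 : η⁻¹ * g * η * c = η⁻¹ * (c * g) * η := by
      rw [mul_assoc _ η c, ← hcen η]
      rw [mul_assoc η⁻¹ g, ← mul_assoc g c, ← hcen g]; group
    rw [h2]
  rw [h1]
  exact aa_add_c hc2 hcen h x g

lemma PP_transport (c : G) (x0 : X) (htr : ∀ α : X, ∃ g : G, g • x0 = α) (C : Subgroup G)
    (hst : ∀ g : G, g • x0 = x0 ↔ g ∈ C) : (PP (G ⧸ C) c : G → ℚ) = PP X c := by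
  choose s hs using htr
  have key : ∀ a b : G, ((a : G) : G ⧸ C) = (b : G ⧸ C) ↔ a • x0 = b • x0 := by
    intro a b
    rw [QuotientGroup.eq, ← hst, mul_smul, inv_smul_eq_iff]
    exact eq_comm
  let e' : X → G ⧸ C := fun x => (s x : G ⧸ C)
  have hb : Function.Bijective e' := by
    constructor
    · intro x y h
      have := (key _ _).mp h
      rwa [hs, hs] at this
    · intro z
      induction z using QuotientGroup.induction_on with
      | H z =>
        refine ⟨z • x0, ?_⟩
        rw [key, hs]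
  let e : X ≃ G ⧸ C := Equiv.ofBijective e' hb
  have he : ∀ (g : G) (x : X), e (g • x) = g • e x := by
    intro g x
    change ((s (g • x) : G) : G ⧸ C) = ((g * s x : G) : G ⧸ C)
    rw [key, hs, mul_smul, hs]
  ext g
  unfold PP
  congr 2
  · refine Nat.card_congr (e.symm.subtypeEquiv fun x => ?_)
    obtain ⟨y, rfl⟩ := e.surjective x
    rw [Equiv.symm_apply_apply, ← he]
    exact e.injective.eq_iff
  · refine Nat.card_congr (e.symm.subtypeEquiv fun x => ?_)
    obtain ⟨y, rfl⟩ := e.surjective x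
    rw [Equiv.symm_apply_apply, ← he, ← he]
    exact e.injective.eq_iff

lemma zpowers_pow_eq {g : G} {k : ℕ} (hk : k.Coprime (Nat.card G)) :
    Subgroup.zpowers (g ^ k) = Subgroup.zpowers g := by
  apply Subgroup.eq_of_le_of_card_ge
  · rw [Subgroup.zpowers_le]; exact Subgroup.npow_mem_zpowers g k
  · rw [Nat.card_zpowers, Nat.card_zpowers, orderOf_pow]
    have : Nat.gcd (orderOf g) k = 1 := by
      have h1 : Nat.Coprime k (orderOf g) :=
        Nat.Coprime.coprime_dvd_right (orderOf_dvd_natCard g) hk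
      exact h1.symm
    rw [this, Nat.div_one]

lemma odd_of_coprime {c : G} (hc2 : c * c = 1) (hc1 : c ≠ 1) {k : ℕ}
    (hk : k.Coprime (Nat.card G)) : Odd k := by
  have h2 : 2 ∣ Nat.card G := by
    have : orderOf c = 2 := orderOf_eq_prime (by rw [pow_two, hc2]) hc1
    rw [← this]; exact orderOf_dvd_natCard c
  have h3 : Nat.Coprime k 2 := Nat.Coprime.coprime_dvd_right h2 hk
  exact Nat.coprime_two_right.mp h3

lemma c_mul_pow {c : G} (hc2 : c * c = 1) (hcen : ∀ g : G, c * g = g * c) {k : ℕ} (hk : Odd k)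
    (g : G) : (c * g) ^ k = c * g ^ k := by
  have hcomm : Commute c g := hcen g
  rw [hcomm.mul_pow]
  obtain ⟨m, hm⟩ := hk
  congr 1
  rw [hm, pow_succ, pow_mul, pow_two, hc2, one_pow, one_mul]

lemma PP_pow {c : G} (hc2 : c * c = 1) (hc1 : c ≠ 1) (hcen : ∀ g : G, c * g = g * c) {k : ℕ}
    (hk : k.Coprime (Nat.card G)) (g : G) : PP X c (g ^ k) = PP X c g := by
  have hodd := odd_of_coprime hc2 hc1 hk
  have key : ∀ (g : G) (x : X), g • x = c • x ↔ (c * g) • x = x := by
    intro g x
    rw [mul_smul]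
    constructor
    · intro h; rw [h, cc hc2]
    · intro h
      have : c • c • g • x = c • x := by rw [h]
      rwa [cc hc2] at this
  unfold PP
  congr 2
  · exact Nat.card_congr (Equiv.subtypeEquivRight fun x => smul_fix_iff (zpowers_pow_eq hk) x)
  · refine Nat.card_congr (Equiv.subtypeEquivRight fun x => ?_)
    rw [key, key, ← c_mul_pow hc2 hcen hodd]
    exact smul_fix_iff (zpowers_pow_eq hk) x

lemma Cond_of_pow {f : G → ℚ} (h : ∀ k : ℕ, k.Coprime (Nat.card G) → ∀ g, f (g ^ k) = f g) :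
    Cond f := by
  intro k hk g g' _
  rw [h k hk, h k hk]; ring

lemma Cond_of_ab {f : G → ℚ} (h : ∀ g g' : G, g⁻¹ * g' ∈ commutator G → f g = f g') :
    Cond f := by
  intro k hk g g' hg
  have h1 : f (g ^ k) = f (g' ^ k) := by
    apply h
    rw [← QuotientGroup.eq] at hg ⊢
    change ((QuotientGroup.mk' (commutator G)) (g ^ k)) = (QuotientGroup.mk' (commutator G)) (g' ^ k)
    rw [map_pow, map_pow]
    congr 1
  rw [h1, h g g' hg]

/-- functions satisfying the condition -/
noncomputable def condSub (G : Type*) [Group G] [Finite G] : Submodule ℚ (G → ℚ) where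
  carrier := {f | Cond f}
  add_mem' := by
    intro a b ha hb k hk g h hgh
    have h1 := ha k hk g h hgh
    have h2 := hb k hk g h hgh
    simp only [Pi.add_apply]
    linarith
  zero_mem' := by
    intro k hk g h hgh; simp
  smul_mem' := by
    intro r a ha k hk g h hgh
    have h1 := ha k hk g h hgh
    simp only [Pi.smul_apply, smul_eq_mul]
    rw [← mul_sub, ← mul_sub, h1]

lemma mem_condSub {f : G → ℚ} : f ∈ condSub G ↔ Cond f := Iff.rfl

end Q264.CM
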