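import Pool.Agent.Q264.CM.Typ

open scoped Classical
open Finset

set_option linter.unusedSectionVars false

namespace Q264.CM

variable {G : Type*} [Group G] [Finite G]

/-- the condition -/
def Cond (f : G → ℚ) : Prop := ∀ k : ℕ, k.Coprime (Nat.card G) →
  ∀ g h : G, g⁻¹ * h ∈ commutator G → f (g ^ k) - f g = f (h ^ k) - f h

lemma perm_c (C : Subgroup G) {c : G} (hc2 : c * c = 1) (g : G) :
    perm C (c * g) = (Nat.card {x : G ⧸ C // g • x = c • x} : ℚ) := by
  unfold perm
  congr 1
  refine Nat.card_congr (Equiv.subtypeEquivRight fun x => ?_)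
  constructor
  · intro h
    have h1 : c • (c * g) • x = c • x := by rw [h]
    rw [smul_smul, ← mul_assoc, hc2, one_mul] at h1
    exact h1
  · intro h
    rw [mul_smul, h, smul_smul, hc2, one_smul]

lemma PP_eq (C : Subgroup G) {c : G} (hc2 : c * c = 1) (g : G) :
    PP (G ⧸ C) c g = perm C g - perm C (c * g) := by
  rw [perm_c C hc2]; rfl

lemma PP_zero (C : Subgroup G) {c : G} (hcen : ∀ g : G, c * g = g * c) (hC : c ∈ C) (g : G) :
    PP (G ⧸ C) c g = 0 := by
  unfold PP
  rw [sub_eq_zero]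
  congr 1
  refine Nat.card_congr (Equiv.subtypeEquivRight fun x => ?_)
  have : c • x = x := by
    induction x using QuotientGroup.induction_on with
    | H x =>
      change ((c * x : G) : G ⧸ C) = (x : G ⧸ C)
      rw [hcen, QuotientGroup.eq]
      simp [hC]
  rw [this]

lemma RC_PP (C : Subgroup G) {c : G} (hc2 : c * c = 1) (hcen : ∀ g : G, c * g = g * c)
    (f : G → ℚ) (hf : RC f) (hodd : ∀ g, f (c * g) = - f g)
    (D : (G → ℚ) →ₗ[ℚ] ℝ)
    (hP : ∀ C : Subgroup G, c ∉ C → D (PP (G ⧸ C) c) = 0) : D f = 0 := by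
  let F : (G → ℚ) →ₗ[ℚ] (G → ℚ) :=
    { toFun := fun f g => (f g - f (c * g)) / 2
      map_add' := by intro a b; ext g; simp only [Pi.add_apply]; ring
      map_smul' := by intro a b; ext g; simp only [Pi.smul_apply, smul_eq_mul, RingHom.id_apply]
                      ring }
  have hF : F f = f := by
    ext g
    change (f g - f (c * g)) / 2 = f g
    rw [hodd]; ring
  have h1 : ∀ v ∈ Submodule.span ℚ (Set.range fun y : G => perm (Subgroup.zpowers y)),
      D (F v) = 0 := by
    intro v hv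
    induction hv using Submodule.span_induction with
    | mem x h =>
      obtain ⟨y, rfl⟩ := h
      have h2 : F (perm (Subgroup.zpowers y)) =
          (1 / 2 : ℚ) • PP (G ⧸ Subgroup.zpowers y) c := by
        ext g
        change (perm _ g - perm _ (c * g)) / 2 = (1 / 2 : ℚ) * PP (G ⧸ Subgroup.zpowers y) c g
        rw [PP_eq _ hc2]; ring
      change D (F (perm (Subgroup.zpowers y))) = 0
      rw [h2, map_smul]
      by_cases hc : c ∈ Subgroup.zpowers y
      · have : (PP (G ⧸ Subgroup.zpowers y) c : G → ℚ) = 0 := by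
          ext g; exact PP_zero _ hcen hc g
        rw [this]; simp
      · rw [hP _ hc]; simp
    | zero => simp
    | add x y _ _ hx hy => rw [map_add, map_add, hx, hy, add_zero]
    | smul a x _ hx => rw [map_smul, map_smul, hx, smul_zero]
  rw [← hF]
  exact h1 f (artin f hf)

section avgs

variable (f : G → ℚ)

/-- Galois average -/
noncomputable def gav (g : G) : ℚ :=
  haveI : NeZero (Nat.card G) := ⟨Nat.card_pos.ne'⟩
  (∑ k : (ZMod (Nat.card G))ˣ, f (g ^ (k : ZMod (Nat.card G)).val)) /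
    (Fintype.card (ZMod (Nat.card G))ˣ)

lemma pow_unit_mul (g : G) (u k : ZMod (Nat.card G)) :
    g ^ (u * k).val = (g ^ u.val) ^ k.val := by
  have : NeZero (Nat.card G) := ⟨Nat.card_pos.ne'⟩
  rw [ZMod.val_mul, pow_mod_natCard, pow_mul]

lemma gav_pow (g : G) (u : (ZMod (Nat.card G))ˣ) :
    gav f (g ^ (u : ZMod (Nat.card G)).val) = gav f g := by
  unfold gav
  have : NeZero (Nat.card G) := ⟨Nat.card_pos.ne'⟩
  congr 1
  refine Fintype.sum_bijective (fun k => u * k) (Group.mulLeft_bijective u) _ _ fun k => ?_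
  rw [Units.val_mul, pow_unit_mul]

lemma exists_unit {g h : G} (hgh : Subgroup.zpowers g = Subgroup.zpowers h) :
    ∃ u : (ZMod (Nat.card G))ˣ, h = g ^ (u : ZMod (Nat.card G)).val := by
  have hN : NeZero (Nat.card G) := ⟨Nat.card_pos.ne'⟩
  have h1 : h ∈ Subgroup.zpowers g := by rw [hgh]; exact Subgroup.mem_zpowers h
  rw [← mem_powers_iff_mem_zpowers] at h1
  obtain ⟨m, rfl⟩ := h1
  simp only at hgh ⊢
  have ho : orderOf (g ^ m) = orderOf g := by
    rw [← Nat.card_zpowers, ← Nat.card_zpowers, hgh]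
  have hcop : Nat.Coprime m (orderOf g) := by
    rw [orderOf_pow] at ho
    have hpos := orderOf_pos g
    have hd : Nat.gcd (orderOf g) m ∣ orderOf g := Nat.gcd_dvd_left _ _
    have h2 : Nat.gcd (orderOf g) m = 1 := by
      have h3 := Nat.div_mul_cancel hd
      rw [ho] at h3
      exact Nat.eq_of_mul_eq_mul_left hpos (by rw [h3, mul_one])
    rw [Nat.coprime_comm]; exact h2
  have hdvd : orderOf g ∣ Nat.card G := orderOf_dvd_natCard g
  have hno : NeZero (orderOf g) := ⟨(orderOf_pos g).ne'⟩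
  obtain ⟨u, hu⟩ := ZMod.unitsMap_surjective hdvd (ZMod.unitOfCoprime m hcop)
  refine ⟨u, ?_⟩
  have h4 : ((u : ZMod (Nat.card G)).val : ZMod (orderOf g)) = (m : ZMod (orderOf g)) := by
    have h5 := congrArg (fun z : (ZMod (orderOf g))ˣ => (z : ZMod (orderOf g))) hu
    simp only [ZMod.coe_unitOfCoprime] at h5
    rw [← h5, ZMod.unitsMap_val]
    rw [ZMod.natCast_val]
  rw [ZMod.natCast_eq_natCast_iff] at h4
  exact (pow_eq_pow_iff_modEq.mpr h4).symm

lemma gav_RC (hf : ∀ x g, f (x * g * x⁻¹) = f g) : RC (gav f) := by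
  refine ⟨fun x g => ?_, fun g h hgh => ?_⟩
  · unfold gav
    congr 1
    apply Finset.sum_congr rfl
    intro k _
    rw [conj_pow, hf]
  · obtain ⟨u, rfl⟩ := exists_unit hgh
    rw [gav_pow]

end avgs

end Q264.CM
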