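import Pool.Agent.Q264.CM.Hlp

open scoped Classical
open Finset

set_option linter.unusedSectionVars false
set_option linter.unusedVariables false

namespace Q264.CM

variable {G : Type*} [Group G] [Finite G] {X : Type*} [Fintype X] [MulAction G X]

/-- orbital counting function -/
noncomputable def NN (x y : X) (g : G) : ℚ := (Nat.card {η : G // (η⁻¹ * g * η) • x = y} : ℚ)

lemma NN_eq [Fintype G] (x y : X) (g : G) :
    NN x y g = ∑ η : G, if (η⁻¹ * g * η) • x = y then (1 : ℚ) else 0 := by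
  unfold NN
  rw [Finset.sum_boole, Nat.card_eq_fintype_card, Fintype.card_subtype]

lemma NN_self_pow {k : ℕ} (hk : k.Coprime (Nat.card G)) (x : X) (g : G) :
    NN x x (g ^ k) = NN x x g := by
  unfold NN
  congr 1
  refine Nat.card_congr (Equiv.subtypeEquivRight fun η => ?_)
  have : η⁻¹ * g ^ k * η = (η⁻¹ * g * η) ^ k := by
    have := conj_pow (a := η⁻¹) (b := g) (i := k)
    rw [inv_inv] at this
    exact this.symm
  rw [this]
  exact smul_fix_iff (zpowers_pow_eq hk) x

lemma NN_sum (x : X) (g : G) : ∑ y : X, NN x y g = Nat.card G := by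
  have : Fintype G := Fintype.ofFinite G
  simp_rw [NN_eq]
  rw [Finset.sum_comm]
  simp

lemma NN_sum' (y : X) (g : G) : ∑ x : X, NN x y g = Nat.card G := by
  have : Fintype G := Fintype.ofFinite G
  simp_rw [NN_eq]
  rw [Finset.sum_comm]
  have : ∀ η : G, (∑ x : X, if (η⁻¹ * g * η) • x = y then (1 : ℚ) else 0) = 1 := by
    intro η
    have h1 : ∀ x : X, (η⁻¹ * g * η) • x = y ↔ x = (η⁻¹ * g * η)⁻¹ • y := by
      intro x
      rw [eq_inv_smul_iff]
    simp_rw [h1]
    simp
  simp_rw [this]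
  simp

lemma NN_smul (s : G) (x y : X) (g : G) : NN (s • x) (s • y) g = NN x y g := by
  unfold NN
  congr 1
  refine Nat.card_congr ((Equiv.mulRight s).subtypeEquiv fun η => ?_)
  rw [Equiv.coe_mulRight]
  have : (η * s)⁻¹ * g * (η * s) = s⁻¹ * ((η⁻¹ * g * η) * s) := by group
  rw [this, mul_smul s⁻¹, inv_smul_eq_iff, mul_smul (η⁻¹ * g * η) s x]

lemma NN_two {h2 : ∀ i j i' j' : X, i ≠ j → i' ≠ j' → ∃ s : G, s • i = i' ∧ s • j = j'}
    {k : ℕ} (hk : k.Coprime (Nat.card G)) (x y : X) (g : G) : NN x y (g ^ k) = NN x y g := by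
  by_cases hxy : x = y
  · subst hxy; exact NN_self_pow hk x g
  · have key : ∀ g : G, ((#(univ.erase x) : ℕ) : ℚ) * NN x y g = Nat.card G - NN x x g := by
      intro g
      have h1 := NN_sum x g
      rw [← Finset.add_sum_erase _ _ (Finset.mem_univ x)] at h1
      have h3 : ∀ z ∈ univ.erase x, NN x z g = NN x y g := by
        intro z hz
        obtain ⟨s, hs1, hs2⟩ := h2 x y x z hxy (Finset.ne_of_mem_erase hz).symm
        have := NN_smul s x y g
        rw [hs1, hs2] at this
        exact this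
      rw [Finset.sum_congr rfl h3, Finset.sum_const, nsmul_eq_mul] at h1
      linarith
    have h4 := key g
    have h5 := key (g ^ k)
    rw [NN_self_pow hk, ← h4] at h5
    have h6 : ((#(univ.erase x) : ℕ) : ℚ) ≠ 0 := by
      have : y ∈ univ.erase x := by simp [Ne.symm hxy]
      exact_mod_cast (Finset.card_pos.mpr ⟨y, this⟩).ne'
    exact mul_left_cancel₀ h6 h5

lemma NN_homog {h2 : ∀ i j i' j' : X, i ≠ j → i' ≠ j' →
      ∃ s : G, (s • i = i' ∧ s • j = j') ∨ (s • i = j' ∧ s • j = i')}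
    {k : ℕ} (hk : k.Coprime (Nat.card G)) (x y : X) (g : G) :
    NN x y (g ^ k) + NN y x (g ^ k) = NN x y g + NN y x g := by
  by_cases hxy : x = y
  · subst hxy; rw [NN_self_pow hk x g]
  · have key : ∀ g : G, ((#(univ.erase x) : ℕ) : ℚ) * (NN x y g + NN y x g) =
        2 * (Nat.card G - NN x x g) := by
      intro g
      have h1 := NN_sum x g
      have h1' := NN_sum' x g
      rw [← Finset.add_sum_erase _ _ (Finset.mem_univ x)] at h1 h1'
      have h3 : ∀ z ∈ univ.erase x, NN x z g + NN z x g = NN x y g + NN y x g := by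
        intro z hz
        obtain ⟨s, hs⟩ := h2 x y x z hxy (Finset.ne_of_mem_erase hz).symm
        have e1 := NN_smul s x y g
        have e2 := NN_smul s y x g
        rcases hs with ⟨hs1, hs2⟩ | ⟨hs1, hs2⟩
        · rw [hs1, hs2] at e1 e2
          rw [e1, e2]
        · rw [hs1, hs2] at e1 e2
          rw [← e1, ← e2]; ring
      have h7 : ∑ z ∈ univ.erase x, (NN x z g + NN z x g) =
          ((#(univ.erase x) : ℕ) : ℚ) * (NN x y g + NN y x g) := by
        rw [Finset.sum_congr rfl h3, Finset.sum_const, nsmul_eq_mul]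
      rw [← h7, Finset.sum_add_distrib]
      linarith
    have h4 := key g
    have h5 := key (g ^ k)
    rw [NN_self_pow hk, ← h4] at h5
    have h6 : ((#(univ.erase x) : ℕ) : ℚ) ≠ 0 := by
      have : y ∈ univ.erase x := by simp [Ne.symm hxy]
      exact_mod_cast (Finset.card_pos.mpr ⟨y, this⟩).ne'
    exact mul_left_cancel₀ h6 h5

lemma aa_NN (x : X) (Φ : Finset X) (g : G) : aa x Φ g = (∑ y ∈ Φ, NN x y g) / Nat.card G := by
  have : Fintype G := Fintype.ofFinite G
  rw [aa_eq]
  simp_rw [NN_eq]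
  rw [Finset.sum_comm]
  congr 1
  apply Finset.sum_congr rfl
  intro η _
  rw [Finset.sum_ite_eq]

/-- sums over a type, symmetrised -/
lemma sum_aa_NN (Φ : Finset X) (g : G) : ∑ x ∈ Φ, aa x Φ g =
    (∑ x ∈ Φ, ∑ y ∈ Φ, (NN x y g + NN y x g)) / (2 * Nat.card G) := by
  have h1 : ∑ x ∈ Φ, ∑ y ∈ Φ, (NN x y g + NN y x g) = 2 * ∑ x ∈ Φ, ∑ y ∈ Φ, NN x y g := by
    simp_rw [Finset.sum_add_distrib]
    rw [Finset.sum_comm (f := fun x y => NN y x g)]
    ring
  rw [h1]
  simp_rw [aa_NN]
  rw [← Finset.sum_div, mul_div_mul_left _ _ (two_ne_zero)]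

/-- index two subgroups -/
lemma index_two_mem {H : Subgroup G} (hH : H.index = 2) (a b g η : G) :
    b⁻¹ * (η⁻¹ * g * η) * a ∈ H ↔ b⁻¹ * g * a ∈ H := by
  simp only [Subgroup.mul_mem_iff_of_index_two hH, inv_mem_iff]
  tauto

lemma index_two_pow {H : Subgroup G} (hH : H.index = 2) (g : G) {k : ℕ} (hk : Odd k) :
    g ^ k ∈ H ↔ g ∈ H := by
  obtain ⟨m, rfl⟩ := hk
  rw [pow_succ, Subgroup.mul_mem_iff_of_index_two hH]
  have : g ^ (2 * m) ∈ H := by
    rw [pow_mul]
    exact H.pow_mem (Subgroup.sq_mem_of_index_two hH g) m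
  simp [this]

end Q264.CM
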