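import Pool.Agent.Q264.CM.Grp

open scoped Classical
open Finset

set_option linter.unusedSectionVars false

namespace Q264.CM

variable {G : Type*} [Group G] [Finite G] {X : Type*} [Fintype X] [MulAction G X]

/-- CM types in a `G`-set. -/
def isT (c : G) (Φ : Finset X) : Prop := ∀ x, x ∈ Φ ↔ c • x ∉ Φ

/-- the function `a⁰` of a `G`-set. -/
noncomputable def aa (x : X) (Φ : Finset X) (g : G) : ℚ :=
  (Nat.card {η : G // (η⁻¹ * g * η) • x ∈ Φ} : ℚ) / Nat.card G

/-- the set of all types -/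
noncomputable def types (X : Type*) [Fintype X] [MulAction G X] (c : G) : Finset (Finset X) :=
  univ.filter (isT c)

/-- fixed points minus points moved by `g` to their conjugate -/
noncomputable def PP (X : Type*) [MulAction G X] (c g : G) : ℚ :=
  (Nat.card {x : X // g • x = x} : ℚ) - Nat.card {x : X // g • x = c • x}

/-- flip a type at `x` -/
noncomputable def flip (c : G) (x : X) (Φ : Finset X) : Finset X :=
  univ.filter fun y => if y = x ∨ y = c • x then y ∉ Φ else y ∈ Φ

lemma mem_flip {c : G} {x y : X} {Φ : Finset X} :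
    y ∈ flip c x Φ ↔ if y = x ∨ y = c • x then y ∉ Φ else y ∈ Φ := by
  simp [flip]

section
variable {c : G} (hc2 : c * c = 1) 
include hc2

lemma cc (x : X) : c • c • x = x := by rw [smul_smul, hc2, one_smul]

lemma flip_isT {x : X} {Φ : Finset X} (h : isT c Φ) : isT c (flip c x Φ) := by
  intro y
  rw [mem_flip, mem_flip]
  have h1 : (c • y = x ∨ c • y = c • x) ↔ (y = x ∨ y = c • x) := by
    constructor
    · rintro (h | h)
      · right; rw [← h, cc hc2]
      · left; exact smul_left_cancel c h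
    · rintro (h | h)
      · right; rw [h]
      · left; rw [h, cc hc2]
  by_cases h2 : y = x ∨ y = c • x
  · rw [if_pos h2, if_pos (h1.mpr h2)]
    rw [h y]
  · rw [if_neg h2, if_neg (fun h3 => h2 (h1.mp h3))]
    exact h y

lemma flip_flip {x : X} {Φ : Finset X} : flip c x (flip c x Φ) = Φ := by
  ext y
  rw [mem_flip, mem_flip]
  by_cases h2 : y = x ∨ y = c • x
  · rw [if_pos h2, if_pos h2, not_not]
  · rw [if_neg h2, if_neg h2]

/-- sign function of a type -/
noncomputable def sg (Φ : Finset X) (x : X) : ℚ := if x ∈ Φ then 1 else -1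

lemma sg_c {Φ : Finset X} (h : isT c Φ) (x : X) : sg Φ (c • x) = - sg Φ x := by
  unfold sg
  by_cases h1 : x ∈ Φ
  · rw [if_pos h1, if_neg ((h x).mp h1)]
  · rw [if_neg h1, if_pos]
    · norm_num
    · by_contra h2; exact h1 ((h x).mpr h2)

lemma sg_flip_self {Φ : Finset X} (x : X) : sg (flip c x Φ) x = - sg Φ x := by
  unfold sg
  by_cases h1 : x ∈ Φ
  · rw [if_neg, if_pos h1]
    rw [mem_flip]; simp [h1]
  · rw [if_pos, if_neg h1]
    · norm_num
    · rw [mem_flip]; simp [h1]

lemma sg_flip_of_ne {Φ : Finset X} {x y : X} (h : ¬ (y = x ∨ y = c • x)) :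
    sg (flip c x Φ) y = sg Φ y := by
  unfold sg
  have : y ∈ flip c x Φ ↔ y ∈ Φ := by rw [mem_flip, if_neg h]
  simp [this]

lemma sg_sq (Φ : Finset X) (x : X) : sg Φ x * sg Φ x = 1 := by
  unfold sg; split_ifs <;> norm_num

lemma sum_types_eq_neg {F : Finset X → ℚ} (x : X) (hF : ∀ Φ, isT c Φ → F (flip c x Φ) = - F Φ) :
    ∑ Φ ∈ types X c, F Φ = 0 := by
  have h1 : ∑ Φ ∈ types X c, F Φ = ∑ Φ ∈ types X c, F (flip c x Φ) := by
    refine Finset.sum_nbij' (fun Φ => flip c x Φ) (fun Φ => flip c x Φ) ?_ ?_ ?_ ?_ ?_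
    · intro Φ h
      simp only [types, Finset.mem_filter, Finset.mem_univ, true_and] at h ⊢
      exact flip_isT hc2 h
    · intro Φ h
      simp only [types, Finset.mem_filter, Finset.mem_univ, true_and] at h ⊢
      exact flip_isT hc2 h
    · intro Φ _; exact flip_flip hc2
    · intro Φ _; exact flip_flip hc2
    · intro Φ _; rw [flip_flip hc2]
  have h2 : ∑ Φ ∈ types X c, F (flip c x Φ) = - ∑ Φ ∈ types X c, F Φ := by
    rw [← Finset.sum_neg_distrib]
    apply Finset.sum_congr rfl
    intro Φ h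
    simp only [types, Finset.mem_filter, Finset.mem_univ, true_and] at h
    exact hF Φ h
  linarith

lemma sum_sg (x : X) : ∑ Φ ∈ types X c, sg Φ x = 0 :=
  sum_types_eq_neg hc2 x fun Φ _ => sg_flip_self hc2 x

lemma sum_sg_sg (hfree : ∀ x : X, c • x ≠ x) (x y : X) : ∑ Φ ∈ types X c, sg Φ x * sg Φ y =
    (#(types X c) : ℚ) * ((if y = x then 1 else 0) - (if y = c • x then 1 else 0)) := by
  by_cases h1 : y = x
  · subst h1
    rw [if_pos rfl, if_neg (fun h => hfree y h.symm), sub_zero, mul_one,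
      Finset.sum_congr rfl (fun Φ _ => sg_sq hc2 Φ y)]
    simp
  · by_cases h2 : y = c • x
    · rw [if_neg h1, if_pos h2, h2]
      have : ∀ Φ ∈ types X c, sg Φ x * sg Φ (c • x) = -1 := by
        intro Φ h
        simp only [types, Finset.mem_filter, Finset.mem_univ, true_and] at h
        rw [sg_c hc2 h]
        have := sg_sq hc2 Φ x
        linarith
      rw [Finset.sum_congr rfl this]
      simp
    · rw [if_neg h1, if_neg h2, sub_zero, mul_zero]
      apply sum_types_eq_neg hc2 x
      intro Φ _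
      rw [sg_flip_self hc2, sg_flip_of_ne hc2 (by tauto)]
      ring

lemma sum_ind (hfree : ∀ x : X, c • x ≠ x) (x y : X) :
    ∑ Φ ∈ types X c, (if x ∈ Φ then (1 : ℚ) else 0) * (if y ∈ Φ then 1 else 0) =
    (#(types X c) : ℚ) / 4 * (1 + (if y = x then 1 else 0) - (if y = c • x then 1 else 0)) := by
  have h1 : ∀ Φ : Finset X, (if x ∈ Φ then (1 : ℚ) else 0) * (if y ∈ Φ then 1 else 0) =
      (1 + sg Φ x + sg Φ y + sg Φ x * sg Φ y) / 4 := by
    intro Φ
    unfold sg
    split_ifs <;> norm_num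
  simp_rw [h1]
  rw [← Finset.sum_div, Finset.sum_add_distrib, Finset.sum_add_distrib, Finset.sum_add_distrib,
    sum_sg hc2, sum_sg hc2, sum_sg_sg hc2 hfree]
  simp
  ring

end

lemma types_nonempty {c : G} (hc2 : c * c = 1) (hfree : ∀ x : X, c • x ≠ x) :
    ∃ Φ : Finset X, isT c Φ := by
  let e := Fintype.equivFin X
  refine ⟨univ.filter fun x => e x < e (c • x), fun x => ?_⟩
  simp only [Finset.mem_filter, Finset.mem_univ, true_and, cc hc2, not_lt]
  constructor
  · intro h; exact h.le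
  · intro h
    refine lt_of_le_of_ne h fun h2 => hfree x (e.injective h2).symm

lemma aa_eq [Fintype G] (x : X) (Φ : Finset X) (g : G) : aa x Φ g =
    (∑ η : G, if (η⁻¹ * g * η) • x ∈ Φ then (1 : ℚ) else 0) / Nat.card G := by
  unfold aa
  congr 1
  rw [Finset.sum_boole, Nat.card_eq_fintype_card, Fintype.card_subtype]

lemma card_fix (g : G) : (Nat.card {x : X // g • x = x} : ℚ) =
    ∑ x : X, if g • x = x then (1 : ℚ) else 0 := by
  rw [Finset.sum_boole, Nat.card_eq_fintype_card, Fintype.card_subtype]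

/-- the average over all types -/
lemma avg {c : G} (hc2 : c * c = 1) (hcen : ∀ g : G, c * g = g * c)
    (hfree : ∀ x : X, c • x ≠ x) :
    (∑ Φ ∈ types X c, ∑ x ∈ Φ, aa x Φ : G → ℚ) =
      ((#(types X c) : ℚ) / 4) • (((Fintype.card X : ℚ) • (1 : G → ℚ)) + PP X c) := by
  have : Fintype G := Fintype.ofFinite G
  ext g
  simp only [Finset.sum_apply, Pi.smul_apply, Pi.add_apply, Pi.one_apply, smul_eq_mul, mul_one]
  have h1 : ∀ Φ : Finset X, ∑ x ∈ Φ, aa x Φ g =
      (∑ η : G, ∑ x : X, (if x ∈ Φ then (1 : ℚ) else 0) *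
        (if (η⁻¹ * g * η) • x ∈ Φ then (1 : ℚ) else 0)) / Nat.card G := by
    intro Φ
    rw [Finset.sum_comm, Finset.sum_div]
    have h2 : ∑ x ∈ Φ, aa x Φ g = ∑ x : X, if x ∈ Φ then aa x Φ g else 0 := by
      rw [Finset.sum_ite_mem]; simp
    rw [h2]
    apply Finset.sum_congr rfl
    intro x _
    rw [aa_eq]
    by_cases h : x ∈ Φ
    · simp [h]
    · simp [h]
  simp_rw [h1]
  rw [← Finset.sum_div, Finset.sum_comm]
  have h3 : ∀ η : G, ∑ Φ ∈ types X c, ∑ x : X, (if x ∈ Φ then (1 : ℚ) else 0) *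
        (if (η⁻¹ * g * η) • x ∈ Φ then (1 : ℚ) else 0) =
        (#(types X c) : ℚ) / 4 * ((Fintype.card X : ℚ) + PP X c g) := by
    intro η
    rw [Finset.sum_comm]
    simp_rw [sum_ind hc2 hfree]
    rw [← Finset.mul_sum, Finset.sum_sub_distrib, Finset.sum_add_distrib]
    congr 1
    have h4 : (∑ x : X, if (η⁻¹ * g * η) • x = x then (1 : ℚ) else 0) =
        Nat.card {x : X // g • x = x} := by
      rw [← card_fix]
      congr 1
      refine Nat.card_congr ((MulAction.toPerm η).subtypeEquiv fun x => ?_)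
      rw [MulAction.toPerm_apply, mul_smul, mul_smul, inv_smul_eq_iff]
    have h5 : (∑ x : X, if (η⁻¹ * g * η) • x = c • x then (1 : ℚ) else 0) =
        Nat.card {x : X // g • x = c • x} := by
      rw [Finset.sum_boole, ← Fintype.card_subtype, ← Nat.card_eq_fintype_card]
      congr 1
      refine Nat.card_congr ((MulAction.toPerm η).subtypeEquiv fun x => ?_)
      rw [MulAction.toPerm_apply, mul_smul, mul_smul, inv_smul_eq_iff, smul_smul η c x,
        ← hcen η, mul_smul]
    rw [h4, h5]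
    unfold PP
    simp
    ring
  simp_rw [h3]
  rw [Finset.sum_const, nsmul_eq_mul, Finset.card_univ, ← Nat.card_eq_fintype_card (α := G)]
  have : (Nat.card G : ℚ) ≠ 0 := by exact_mod_cast Nat.card_pos.ne'
  field_simp

end Q264.CM
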